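import Pool.Agent.Helper68.Dom.Goals

/-!
# Packet DOM-THIRD (project DOM, MP_18808e_co)
-/

set_option autoImplicit false

namespace NApexGraphs.Dom.Helper98

open SimpleGraph NApexGraphs NApexGraphs.Dom NApexGraphs.Dom.Goals

lemma del_adj {V : Type} {G : SimpleGraph V} {u r a b : V} (h : G.Adj a b)
    (h1 : a = u → b ≠ r) (h2 : a = r → b ≠ u) : (G.deleteEdges {s(u, r)}).Adj a b := by
  rw [deleteEdges_adj]
  refine ⟨h, fun h3 => ?_⟩
  rw [Set.mem_singleton_iff, Sym2.eq_iff] at h3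
  rcases h3 with ⟨h4, h5⟩ | ⟨h4, h5⟩
  · exact h1 h4 h5
  · exact h2 h4 h5

theorem gTHIRD : Goals.PSETS → Goals.THIRD := by
  intro hPS V _ G n u x p q X C1 C2 r1 r2 hC r c d hr hlow
  classical
  by_contra hcon
  push Not at hcon
  obtain ⟨hr1, hr2⟩ := hcon
  obtain ⟨hcd, hc, hd, hN⟩ := hlow
  have hru : r ≠ u := hr.1.2.1
  have hrx : r ≠ x := hr.1.2.2
  obtain ⟨Y, hY⟩ := hPS V G n u r hC.xc.set hru
  have hYsub : ∀ s ∈ Y, s ∈ X ∨ s = c ∨ s = d := by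
    intro s hs
    rcases (hN s).1 (hY.nbr s hs) with h | h | h
    · exact Or.inl h
    · rw [h] at hs
      exact absurd hs hY.hu
    · exact Or.inr h
  have hrc : G.Adj r c := (hN c).2 (Or.inr (Or.inr (Or.inl rfl)))
  have hrd : G.Adj r d := (hN d).2 (Or.inr (Or.inr (Or.inr rfl)))
  -- facts about the components
  have key : ∀ C : Set V, IsComp G (Rest u x X \ {p, q}) C → r ∉ C →
      (∀ y ∈ C, y ∉ Y ∧ y ∉ X ∧ y ≠ u ∧ y ≠ x ∧ y ≠ p ∧ y ≠ q) := by
    intro C hCC hrC y hy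
    have h1 := hCC.sub hy
    have h2 : y ∉ ({p, q} : Set V) := h1.2
    rw [Set.mem_insert_iff, Set.mem_singleton_iff, not_or] at h2
    refine ⟨fun h3 => ?_, h1.1.1, h1.1.2.1, h1.1.2.2, h2.1, h2.2⟩
    rcases hYsub y h3 with h4 | h4 | h4
    · exact h1.1.1 h4
    · rw [h4] at hy
      exact hrC (hCC.closed c hy r hr hrc.symm)
    · rw [h4] at hy
      exact hrC (hCC.closed d hy r hr hrd.symm)
  have k1 := key C1 hC.c1 hr1
  have k2 := key C2 hC.c2 hr2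
  have hxY : x ∉ Y := by
    intro h
    rcases hYsub x h with h1 | h1 | h1
    · exact hC.xc.ps.hx h1
    · exact hc.2.2 h1.symm
    · exact hd.2.2 h1.symm
  -- two further vertices
  have hcard : ((insert p (insert q X)) \ Y).card ≥ 2 := by
    have h1 : (insert p (insert q X)).card = n + 2 := by
      rw [Finset.card_insert_of_notMem, Finset.card_insert_of_notMem hC.xc.hq.1, hC.xc.ps.card]
      rw [Finset.mem_insert, not_or]
      exact ⟨hC.xc.pq, hC.xc.hp.1⟩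
    have h2 := Finset.le_card_sdiff Y (insert p (insert q X))
    rw [h1, hY.card] at h2
    omega
  obtain ⟨e1, he1, e2, he2, hne⟩ := Finset.one_lt_card.1 hcard
  have heq : ∀ e ∈ (insert p (insert q X)) \ Y, e ∉ Y ∧ e ≠ u ∧ e ≠ x ∧ e ∉ C1 ∧ e ∉ C2 ∧
      G.Adj x e ∧ Touch G C1 {e} ∧ Touch G C2 {e} := by
    intro e he
    rw [Finset.mem_sdiff, Finset.mem_insert, Finset.mem_insert] at he
    obtain ⟨he, heY⟩ := he
    rcases he with rfl | rfl | he
    · exact ⟨heY, hC.xc.hp.2.1, hC.xc.hp.2.2, fun h => (k1 e h).2.2.2.2.1 rfl,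
        fun h => (k2 e h).2.2.2.2.1 rfl, (hC.xc.nx e).2 (Or.inr (Or.inr (Or.inl rfl))),
        hC.t1p, hC.t2p⟩
    · exact ⟨heY, hC.xc.hq.2.1, hC.xc.hq.2.2, fun h => (k1 e h).2.2.2.2.2 rfl,
        fun h => (k2 e h).2.2.2.2.2 rfl, (hC.xc.nx e).2 (Or.inr (Or.inr (Or.inr rfl))),
        hC.t1q, hC.t2q⟩
    · refine ⟨heY, ?_, ?_, fun h => (k1 e h).2.1 he, fun h => (k2 e h).2.1 he,
        (hC.xc.nx e).2 (Or.inl he), ⟨r1, hC.h1, e, rfl, hC.s1 e he⟩,
        ⟨r2, hC.h2, e, rfl, hC.s2 e he⟩⟩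
      · rintro rfl
        exact hC.xc.ps.hu he
      · rintro rfl
        exact hC.xc.ps.hx he
  obtain ⟨e1Y, e1u, e1x, e11, e12, xe1, t11, t21⟩ := heq e1 he1
  obtain ⟨e2Y, e2u, e2x, e21, e22, xe2, t12, t22⟩ := heq e2 he2
  -- touching in the graph without the edge `u r`
  have hcomp : ∀ C : Set V, Conn G C → (∀ y ∈ C, y ∉ Y ∧ y ∉ X ∧ y ≠ u ∧ y ≠ x ∧ y ≠ p ∧ y ≠ q) →
      Conn (G.deleteEdges {s(u, r)}) C := by
    intro C hCC hk
    exact hCC.mono fun a ha b hb hab =>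
      del_adj hab (fun h => absurd h (hk a ha).2.2.1) (fun _ => (hk b hb).2.2.1)
  have htu : ∀ C : Set V, Conn G C → r ∉ C →
      (∀ y ∈ C, y ∉ Y ∧ y ∉ X ∧ y ≠ u ∧ y ≠ x ∧ y ≠ p ∧ y ≠ q) →
      Touch (G.deleteEdges {s(u, r)}) C {u} := by
    intro C hCC hrC hk
    obtain ⟨y, hy⟩ := hCC.1
    refine ⟨y, hy, u, rfl, del_adj (hC.xc.set.dom y (hk y hy).2.2.1).symm
      (fun h => absurd h (hk y hy).2.2.1) (fun h => ?_)⟩
    rw [h] at hy
    exact absurd hy hrC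
  have hte : ∀ (C : Set V) (e : V), e ≠ u → Touch G C {e} →
      (∀ y ∈ C, y ≠ u) → Touch (G.deleteEdges {s(u, r)}) C {e} := by
    rintro C e heu ⟨y, hy, z, hz, hyz⟩ hk
    refine ⟨y, hy, z, hz, del_adj hyz (fun h => absurd h (hk y hy)) (fun _ => ?_)⟩
    rw [Set.mem_singleton_iff.1 hz]
    exact heu
  have hxu : (G.deleteEdges {s(u, r)}).Adj x u :=
    del_adj (hC.xc.set.dom x hC.xc.xu).symm (fun h => absurd h hC.xc.xu)
      (fun h => absurd h.symm hrx)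
  apply hY.pl.2
  apply hasK33_sets {x} C1 C2 {u} {e1} {e2}
  · simp only [List.mem_cons, List.not_mem_nil, or_false, forall_eq_or_imp, forall_eq]
    exact ⟨Conn.singleton _ x, hcomp C1 hC.c1.conn k1, hcomp C2 hC.c2.conn k2,
      Conn.singleton _ u, Conn.singleton _ e1, Conn.singleton _ e2⟩
  · simp only [List.pairwise_cons, List.mem_cons, List.not_mem_nil, or_false, forall_eq_or_imp,
      forall_eq, IsEmpty.forall_iff, implies_true, List.Pairwise.nil, and_true,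
      Set.disjoint_singleton, Set.disjoint_singleton_left, Set.disjoint_singleton_right]
    refine ⟨⟨fun h => (k1 x h).2.2.2.1 rfl, fun h => (k2 x h).2.2.2.1 rfl, hC.xc.xu, e1x.symm,
      e2x.symm⟩, ⟨hC.dis, fun h => (k1 u h).2.2.1 rfl, e11, e21⟩,
      ⟨fun h => (k2 u h).2.2.1 rfl, e12, e22⟩, ⟨e1u.symm, e2u.symm⟩, hne⟩
  · simp only [List.mem_cons, List.not_mem_nil, or_false, forall_eq_or_imp, forall_eq,
      touch_singleton]
    refine ⟨⟨hxu, ?_, ?_⟩, ⟨htu C1 hC.c1.conn hr1 k1, ?_, ?_⟩,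
      ⟨htu C2 hC.c2.conn hr2 k2, ?_, ?_⟩⟩
    · exact del_adj xe1 (fun h => absurd h hC.xc.xu) (fun h => absurd h.symm hrx)
    · exact del_adj xe2 (fun h => absurd h hC.xc.xu) (fun h => absurd h.symm hrx)
    · exact hte C1 e1 e1u t11 fun y hy => (k1 y hy).2.2.1
    · exact hte C1 e2 e2u t12 fun y hy => (k1 y hy).2.2.1
    · exact hte C2 e1 e1u t21 fun y hy => (k2 y hy).2.2.1
    · exact hte C2 e2 e2u t22 fun y hy => (k2 y hy).2.2.1
  · simp only [List.mem_cons, List.not_mem_nil, or_false, forall_eq_or_imp, forall_eq,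
      Set.singleton_subset_iff]
    exact ⟨hxY, fun y hy => (k1 y hy).1, fun y hy => (k2 y hy).1, hY.hu, e1Y, e2Y⟩

end NApexGraphs.Dom.Helper98
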